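import Pool.Graph.R_pool_sql_team_seeded_3997aac3.Q211.TP.Vex2
import Pool.Graph.R_pool_sql_team_seeded_3997aac3.Q211.TP.Tyc

/-!
# One P-space whose Hewitt `E`-compact extension is not a P-space for many spaces `E` at once

In the model of the library module `Pool.Graph.R_pool_sql_team_seeded_3997aac3.Q211.TP.Vex2` there
is one P-space `X` such that for the discrete space `E` of the natural numbers, for the real line
`E`, and for every other Hausdorff space `E` in a large class, the discrete space of the real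
numbers is `E`-compact, `X` is `E`-completely regular, and the Hewitt `E`-compact extension of `X`
is not a P-space.
-/

set_option autoImplicit false

namespace Pool.Agent.Results.MP_a61393_lc.OneSpaceForAllExponents

open Pool.Agent.W868 Pool.Agent.Q211.FS Pool.Agent.Q211.TP
open ZFSet (pair)

/-- In `M`, the Hausdorff space `(E, σ)` has a sequence of distinct points such that every point
of `E` has a neighbourhood with at most one point of the sequence, and all elements of the elements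
of `E` are simple codes (natural numbers, codes of rational numbers and pairs of them). -/
def Exponent (M : Set ZFSet.{0}) (E σ : ZFSet.{0}) : Prop :=
  ChnM.Flat E ∧ ∃ i, GoodE M E σ i

/-- There is a countable transitive model `M` of ZF with the real line `(R, ρ)` and one P-space
`(X, τ)` such that for every exponent `(E, σ)` of `M` the discrete space `R` is `E`-compact, `X` is
`E`-completely regular and the Hewitt `E`-compact extension of `X` is not a P-space. The discrete
space of the natural numbers (which is Tychonoff) and the real line are such exponents. -/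
theorem result : ∃ M : Set ZFSet.{0}, M.Countable ∧ IsZF M ∧
    ∃ R ∈ M, ∃ ρ ∈ M, IsReals M R ρ ∧
      Exponent M ZFSet.omega (PM M ZFSet.omega) ∧ Exponent M R ρ ∧
      TychIn M R ρ ZFSet.omega (PM M ZFSet.omega) ∧
      ∃ X ∈ M, ∃ τ ∈ M, IsTopIn M X τ ∧ IsPSpace M X τ ∧
        ∀ E σ : ZFSet.{0}, Exponent M E σ →
          ECompactIn M E σ R (PM M R) ∧ ERegIn M E σ X τ ∧
            ∃ V ∈ M, ∃ υ ∈ M, IsHewitt M E σ X τ V υ ∧ ¬ IsPSpace M V υ := by
  obtain ⟨M, pt, X, K, R0, BL, h⟩ := exists_chf ℚ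
  have hM := h.zf
  obtain ⟨R, hR, ρ, hρ, hRρ⟩ := exists_line hM h.qc h.lq
  have hE := goodE_nat hM
  have hom : ZFSet.omega ∈ M := hM.infinity
  obtain ⟨K2, hK2, R2, hR2, h3, h4⟩ := h.exists_K2
  have h2 : K2M h K2 R2 := ⟨hK2, hR2, h3, h4⟩
  have hS := h.exists_B
  obtain ⟨τ, hτM, hτ⟩ := exists_gen hM hS.1 hK2 hR2
  have hsub : ∀ (U : ZFSet.{0}) (x : ZFSet.{0}), x ∈ M → U ∈ M → U \ {x} ∈ M := by
    intro U x hx hU
    have h8 : U \ {x} = ZFSet.sep (fun z => z ≠ x) U := by
      ext z
      rw [ZFSet.mem_sep, ZFSet.mem_sdiff, ZFSet.mem_singleton]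
    rw [h8]
    exact hM.sep_mem (Q := fun z => z ≠ x)
      (Dfn.not (Dfn.eq (DfnF.proj 0) (DfnF.const hx))) hU
  have hzd : ZeroDim ZFSet.omega (PM M ZFSet.omega) := by
    refine ⟨fun x hx => mem_PM.2 ⟨hsub _ _ (hM.trans _ hom _ hx) hom, fun z hz =>
      (ZFSet.mem_sdiff.1 hz).1⟩, fun U hU x hx => ?_⟩
    obtain ⟨hUM, hUX⟩ := mem_PM.1 hU
    have hxM := hM.trans _ hUM _ hx
    refine ⟨{x}, mem_PM.2 ⟨hM.single_mem hxM, fun z hz => ?_⟩, mem_PM.2
      ⟨hsub _ _ hxM hom, fun z hz => (ZFSet.mem_sdiff.1 hz).1⟩, ZFSet.mem_singleton.2 rfl,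
      fun z hz => ?_⟩
    · rw [ZFSet.mem_singleton.1 hz]
      exact hUX hx
    · rw [ZFSet.mem_singleton.1 hz]
      exact hx
  exact ⟨M, h.cnt, hM, R, hR, ρ, hρ, hRρ, ⟨flat_omega, _, hE⟩,
    ⟨flat_real hRρ, goodE_real hM h.qc h.lq hR hρ hRρ⟩,
    tych_of_zeroDim hM h.qc h.lq hR hRρ hom (PM_mem hM hom) hE.top hzd,
    _, hS.1, τ, hτM, hτ.top hM hS.1, h2.pSpace hS hτ, fun E σ ⟨hfl, i, hEi⟩ =>
      ⟨rdisc_compact hM h.qc h.lq hR hRρ hEi, h2.hewitt hS hτM hτ hfl hEi⟩⟩

end Pool.Agent.Results.MP_a61393_lc.OneSpaceForAllExponents
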